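import Pool.Agent.helper90.IV.Spec

/-!
# MP_26dbae_co: the linked subdivision in the pair graph (GLA)
-/

set_option autoImplicit false

open scoped BigOperators

namespace Pool.Agent.helper77.IV

open Pool.Agent.IV Pool.Agent.helper23.TH Pool.Agent.KS

open Classical

theorem hub_ne (s h : ℕ) (pj : Fin (h + 1) → ℕ) (i j : CI h pj) (hij : (cat s h pj).par i = some j) :
    chub i ≠ chub j := by
  rcases i with i | i | i
  · induction i using Fin.cases with
    | zero => simp [cat] at hij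
    | succ i =>
      simp only [cat, Fin.cases_succ, Option.some.injEq] at hij
      subst hij
      simp [chub]
  · simp only [cat, Option.some.injEq] at hij
    subst hij
    simp [chub]
  · simp only [cat, Option.some.injEq] at hij
    subst hij
    simp [chub]

theorem slots (s h : ℕ) (pj : Fin (h + 1) → ℕ) (hs : 4 ≤ s) : Nonempty (cat s h pj).R :=
  ⟨⟨Sum.inl 0, ⟨0, by simp only [cat]; omega⟩⟩⟩

theorem GLA (hGH1 : GH1_stmt) (hGH2 : GH2_stmt) (hGL1 : GL1_stmt) (hGL2 : GL2_stmt) (hGL3 : GL3_stmt)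
    (hGL4 : GL4_stmt) (hGL5 : GL5_stmt) (hOP : OP_stmt) : GLA_stmt := by
  intro s h pj ρ κ k hs hρ hκ hk hU
  have hs3 : (3 : ℝ) ≤ (s : ℝ) - 1 := by
    have : (4 : ℝ) ≤ s := by exact_mod_cast hs
    linarith
  have hρ3 : (3 : ℝ) ≤ ρ := le_trans hs3 hρ
  have hρ0 : (0 : ℝ) < ρ := by linarith
  have hir : (1 : ℝ) / ρ ≤ 1 := by
    rw [div_le_one hρ0]; linarith
  have hir0 : (0 : ℝ) < 1 / ρ := by positivity
  obtain ⟨ε, D1, hε, h1⟩ := hGL1 κ hκ
  obtain ⟨t, C0, ht, h2⟩ := hGH2 (CI h pj) (cat s h pj) chub k (hub_ne s h pj)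
  obtain ⟨C, D2, hC, h3⟩ := hGH1 t κ ε hκ hε C0
  obtain ⟨K, hK, h4⟩ := hOP s h pj ρ k hs hρ hU
  set D0 : ℝ := max 1 (max D1 D2) with hD0
  have hD01 : (1 : ℝ) ≤ D0 := le_max_left _ _
  have hD0a : D1 ≤ D0 := le_trans (le_max_left _ _) (le_max_right _ _)
  have hD0b : D2 ≤ D0 := le_trans (le_max_right _ _) (le_max_right _ _)
  set M : ℝ := K * (2 * κ) ^ (2 - 1 / ρ) * (5 ^ 10 * ((C : ℝ) ^ 2 + C)) with hM
  have hM0 : 0 ≤ M := by positivity
  have hD0p : 0 < D0 ^ (2 + 1 / ρ) := Real.rpow_pos_of_pos (by linarith) _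
  refine ⟨D0 ^ (2 + 1 / ρ) + 1 + M, by positivity, ?_⟩
  intro V X _ _ A p q D hPG hV hD hlo hhi hn
  have hn1 : (1 : ℝ) ≤ (Fintype.card V : ℝ) := by exact_mod_cast hV
  have hDpos : (0 : ℝ) < D := by linarith
  have hDD : D0 ≤ D := by
    by_contra hlt
    push Not at hlt
    have e1 : D ^ (2 + 1 / ρ) ≤ D0 ^ (2 + 1 / ρ) :=
      Real.rpow_le_rpow hDpos.le hlt.le (by positivity)
    have e2 : D0 ^ (2 + 1 / ρ) + 1 + M ≤ (D0 ^ (2 + 1 / ρ) + 1 + M) * (Fintype.card V : ℝ) :=
      le_mul_of_one_le_right (by positivity) hn1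
    linarith
  have hMn : M * (Fintype.card V : ℝ) ≤ D ^ (2 + 1 / ρ) := by
    refine le_trans ?_ hn
    have : (0 : ℝ) ≤ (Fintype.card V : ℝ) := by linarith
    nlinarith
  by_cases hhw : ε * Fintype.card V * D ^ 2 ≤ hw2 A C
  · obtain ⟨a, a', w, z, haa, hw, hz, hwz, hAw, hAz, hAz', hco, hcd⟩ :=
      h3 V X A p q D hPG hV (le_trans hD0b hDD) hlo hhi hhw
    exact h2 V X A p q hPG a a' w z haa hw hz hwz hAw hAz hAz' hco
      (fun i j => le_trans hC (hcd i j))
  · push Not at hhw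
    have hW := h1 V X A p q C D hPG (le_trans hD0a hDD) hDpos hlo hhi hhw.le
    have hWmem : ∀ v ∈ W4 A p q C, (∀ i : Fin 4, A (v i.castSucc) (v i.succ)) ∧
        ∀ i j, i ≠ j → ¬ Co p q (v i) (v j) := by
      intro v hv
      unfold W4 at hv
      rw [Finset.mem_filter] at hv
      exact ⟨hv.2.1, hv.2.2.1⟩
    obtain ⟨α, β, hαβ⟩ := hGL2 V X p q (W4 A p q C) (fun v hv => (hWmem v hv).2)
    set S : Finset (Fin 5 → V) :=
      (W4 A p q C).filter fun v => ∀ i, α (p (v i)) = i ∧ β (q (v i)) = i with hS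
    have hWpos : (0 : ℝ) < Fintype.card V * D ^ 4 / 2 := by positivity
    have hαβ' : ((W4 A p q C).card : ℝ) ≤ 5 ^ 10 * (S.card : ℝ) := by exact_mod_cast hαβ
    have hSpos : (0 : ℝ) < S.card := by
      have : (0 : ℝ) < 5 ^ 10 * (S.card : ℝ) := by linarith
      exact (mul_pos_iff_of_pos_left (by positivity)).1 this
    have hSne : S.Nonempty := by
      rw [← Finset.card_pos]; exact_mod_cast hSpos
    obtain ⟨F, hFS, hF04, hF2, hF13, hSF⟩ :=
      hGL3 V X A p q C S hPG (Finset.filter_subset _ _) hSne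
    have hSF' : (S.card : ℝ) ≤ ((C : ℝ) ^ 2 + C) * (Fintype.card V : ℝ) ^ 2 * F.card := by
      exact_mod_cast hSF
    have hFpos : (0 : ℝ) < F.card := by
      rcases Nat.eq_zero_or_pos F.card with h0 | h0
      · rw [h0] at hSF'
        simp only [CharP.cast_eq_zero, mul_zero] at hSF'
        linarith
      · exact_mod_cast h0
    have hFne : F.Nonempty := by
      rw [← Finset.card_pos]; exact_mod_cast hFpos
    have hFA : ∀ v ∈ F, ∀ i : Fin 4, A (v i.castSucc) (v i.succ) := fun v hv =>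
      (hWmem v (Finset.mem_filter.1 (hFS hv)).1).1
    have hFC : ∀ v ∈ F, ∀ i j, i ≠ j → ¬ Co p q (v i) (v j) := fun v hv =>
      (hWmem v (Finset.mem_filter.1 (hFS hv)).1).2
    have hFab : ∀ v ∈ F, ∀ i, α (p (v i)) = i ∧ β (q (v i)) = i := fun v hv =>
      (Finset.mem_filter.1 (hFS hv)).2
    obtain ⟨U, A', lam, hUne, hUc, hPrE, hdeg, hA'⟩ :=
      hGL4 V X A p q α β ⌊κ * D⌋₊ F hPG (fun v => Nat.le_floor (hhi v)) hFne hFA hFab hF04 hF2 hF13
    have hcard : Fintype.card {v // v ∈ U} = U.card := Fintype.card_coe U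
    have hRB : RB (cat s h pj) A' lam k := by
      refine h4 {v // v ∈ U} X A' lam hPrE ?_ ?_
      · rw [hcard]; exact Finset.card_pos.2 hUne
      · rw [hcard]
        have e1 : (U.card : ℝ) ≤ 2 * κ * D := by
          have e2 : (U.card : ℝ) ≤ 2 * (⌊κ * D⌋₊ : ℝ) := by exact_mod_cast hUc
          have e3 : (⌊κ * D⌋₊ : ℝ) ≤ κ * D := Nat.floor_le (by positivity)
          linarith
        have e4 : (U.card : ℝ) ^ (2 - 1 / ρ) ≤ (2 * κ) ^ (2 - 1 / ρ) * D ^ (2 - 1 / ρ) := by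
          rw [← Real.mul_rpow (by positivity) hDpos.le]
          exact Real.rpow_le_rpow (by positivity) e1 (by linarith)
        have e5 : (2 : ℝ) * F.card ≤ ∑ v, (deg A' v : ℝ) := by exact_mod_cast hdeg
        have e6 : D ^ (2 - 1 / ρ) * D ^ (2 + 1 / ρ) = D ^ 4 := by
          rw [← Real.rpow_add hDpos]
          have : (2 - 1 / ρ + (2 + 1 / ρ) : ℝ) = ((4 : ℕ) : ℝ) := by norm_num
          rw [this, Real.rpow_natCast]
        have hDr : 0 < D ^ (2 - 1 / ρ) := Real.rpow_pos_of_pos hDpos _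
        set n : ℝ := (Fintype.card V : ℝ) with hnn
        set Q : ℝ := 5 ^ 10 * ((C : ℝ) ^ 2 + C) with hQ
        -- lower bound for F
        have e7 : n * D ^ 4 ≤ 2 * Q * n ^ 2 * F.card := by
          have g1 : n * D ^ 4 / 2 ≤ 5 ^ 10 * (((C : ℝ) ^ 2 + C) * n ^ 2 * F.card) := by
            calc n * D ^ 4 / 2 ≤ ((W4 A p q C).card : ℝ) := hW
              _ ≤ 5 ^ 10 * (S.card : ℝ) := hαβ'
              _ ≤ 5 ^ 10 * (((C : ℝ) ^ 2 + C) * n ^ 2 * F.card) := by
                exact mul_le_mul_of_nonneg_left hSF' (by positivity)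
          rw [hQ]
          linarith
        have hnpos : 0 < n := by linarith
        have e8 : D ^ 4 ≤ 2 * Q * n * F.card := by
          have : n * D ^ 4 ≤ n * (2 * Q * n * F.card) := by
            calc n * D ^ 4 ≤ 2 * Q * n ^ 2 * F.card := e7
              _ = n * (2 * Q * n * F.card) := by ring
          exact le_of_mul_le_mul_left this hnpos
        have hQpos : 0 < Q := by
          have g0 : (0 : ℝ) ≤ Q := by positivity
          rcases g0.lt_or_eq with g | g
          · exact g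
          · exfalso
            rw [← g] at e8
            have : 0 < D ^ 4 := by positivity
            simp only [mul_zero, zero_mul] at e8
            linarith
        -- conclude
        have e9 : K * ((2 * κ) ^ (2 - 1 / ρ) * D ^ (2 - 1 / ρ)) ≤ 2 * F.card := by
          have hQn : 0 < Q * n := by positivity
          have g2 : (K * ((2 * κ) ^ (2 - 1 / ρ) * D ^ (2 - 1 / ρ))) * (Q * n) ≤
              (2 * F.card) * (Q * n) := by
            calc (K * ((2 * κ) ^ (2 - 1 / ρ) * D ^ (2 - 1 / ρ))) * (Q * n)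
                = D ^ (2 - 1 / ρ) * (M * n) := by rw [hM]; ring
              _ ≤ D ^ (2 - 1 / ρ) * D ^ (2 + 1 / ρ) := mul_le_mul_of_nonneg_left hMn hDr.le
              _ = D ^ 4 := e6
              _ ≤ 2 * Q * n * F.card := e8
              _ = (2 * F.card) * (Q * n) := by ring
          exact le_of_mul_le_mul_right g2 hQn
        calc K * (U.card : ℝ) ^ (2 - 1 / ρ)
            ≤ K * ((2 * κ) ^ (2 - 1 / ρ) * D ^ (2 - 1 / ρ)) := mul_le_mul_of_nonneg_left e4 hK.le
          _ ≤ 2 * F.card := e9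
          _ ≤ ∑ v, (deg A' v : ℝ) := e5
    exact hGL5 (CI h pj) (cat s h pj) chub k (hub_ne s h pj) (slots s h pj hs) V X A p q α β F hPG hFA hFC
      hFab hF04 U A' lam hPrE hA' hk hRB

end Pool.Agent.helper77.IV
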